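import Pool.Agent.Y369.LC.Vol

/-!
# A lattice-catching set of area `5 / (4 sin 72°) < 4/3`

The star of five rhombi (with acute angle `72°`, width `1/2`) placed around a point meets every
congruent copy of the integer lattice.  Its area is at most `5 / (4 sin 72°) = 1.3143…`,
which is less than `4/3`, the area of the optimal convex set `K`.
-/

namespace Pool.Agent.Results.MP_02aa3f_co.PenroseStar

open MeasureTheory Pool.Agent.Y369.LC

/-- The Euclidean plane. -/
abbrev Plane : Type := EuclideanSpace ℝ (Fin 2)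

/-- Every congruent copy of `E` contains a point of the integer lattice. -/
def LatticeCatching (E : Set Plane) : Prop :=
  ∀ ρ : Plane ≃ᵢ Plane, ∃ m n : ℤ, (!₂[(m : ℝ), (n : ℝ)] : Plane) ∈ ρ '' E

/-- The infimum of the areas of the Lebesgue measurable lattice-catching sets. -/
noncomputable def mstar : ENNReal :=
  sInf {v | ∃ E : Set Plane, NullMeasurableSet E volume ∧ LatticeCatching E ∧ v = volume E}

/-- The convex lattice-catching set of least area. -/
def K : Set Plane := {p | |p 0| ≤ 1/2 ∧ |p 1| ≤ 3/4 - (p 0) ^ 2}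

/-- The identification of `ℂ` with the plane. -/
noncomputable def Φ : ℂ ≃ₗᵢ[ℝ] Plane := Complex.orthonormalBasisOneI.repr

theorem Φ_apply_zero (z : ℂ) : Φ z 0 = z.re := by
  have h := Complex.orthonormalBasisOneI_repr_apply z
  simp [Φ, h]

theorem Φ_apply_one (z : ℂ) : Φ z 1 = z.im := by
  have h := Complex.orthonormalBasisOneI_repr_apply z
  simp [Φ, h]

theorem Φ_int (m n : ℤ) : Φ ((m : ℂ) + n * Complex.I) = (!₂[(m : ℝ), (n : ℝ)] : Plane) := by
  ext i
  fin_cases i
  · simp [Φ_apply_zero]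
  · simp [Φ_apply_one]

theorem star_catching : LatticeCatching (Φ '' EC) := by
  intro ρ
  obtain ⟨m, n, h⟩ := isometry_catch
    ((Φ.toIsometryEquiv.trans ρ.symm).trans Φ.symm.toIsometryEquiv)
  refine ⟨m, n, ?_⟩
  have h' : Φ.symm (ρ.symm (Φ ((m : ℂ) + n * Complex.I))) ∈ EC := h
  refine ⟨ρ.symm (Φ ((m : ℂ) + n * Complex.I)), ⟨_, h', by simp⟩, ?_⟩
  rw [ρ.apply_symm_apply, Φ_int]

theorem star_volume : volume (Φ '' EC) ≤
    ENNReal.ofReal (5 / (4 * Real.sin (2 * Real.pi / 5))) := by
  have h1 : volume (Φ '' EC) = volume EC := by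
    have h2 : Φ '' EC = Φ.symm ⁻¹' EC := Φ.toEquiv.image_eq_preimage_symm EC
    rw [h2]
    exact Φ.symm.measurePreserving.measure_preimage isClosed_EC.measurableSet.nullMeasurableSet
  rw [h1]
  exact volume_EC_le

theorem star_compact : IsCompact (Φ '' EC) := isCompact_EC.image Φ.continuous

theorem const_lt : 5 / (4 * Real.sin (2 * Real.pi / 5)) < 1.3144 := by
  have hS := sS_pos
  have hSk := sS_sq
  obtain ⟨t1, t2⟩ := tau_lt tau_sq tau_pos
  have S1 : 0.951 < sS := by nlinarith
  have : Real.sin (2 * Real.pi / 5) = sS := rfl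
  rw [this, div_lt_iff₀ (by positivity)]
  nlinarith

theorem const_lt' : ENNReal.ofReal (5 / (4 * Real.sin (2 * Real.pi / 5))) < 4 / 3 := by
  have h := const_lt
  have h1 : (4 / 3 : ENNReal) = ENNReal.ofReal (4 / 3) := by
    rw [ENNReal.ofReal_div_of_pos (by norm_num)]
    norm_num
  rw [h1]
  apply (ENNReal.ofReal_lt_ofReal_iff (by norm_num)).2
  linarith

theorem volume_K : volume K = 4 / 3 := by
  let R2 : Set (ℝ × ℝ) := {q | |q.1| ≤ 1/2 ∧ |q.2| ≤ 3/4 - q.1 ^ 2}
  have hR2 : MeasurableSet R2 := by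
    apply IsClosed.measurableSet
    have h1 : Continuous fun q : ℝ × ℝ => |q.1| := by fun_prop
    have h2 : Continuous fun q : ℝ × ℝ => |q.2| := by fun_prop
    have h3 : Continuous fun q : ℝ × ℝ => 3/4 - q.1 ^ 2 := by fun_prop
    exact (isClosed_le h1 continuous_const).inter (isClosed_le h2 h3)
  have hK : K = Φ.symm ⁻¹' (Complex.measurableEquivRealProd ⁻¹' R2) := by
    ext p
    have h0 : (Φ.symm p).re = p 0 := by rw [← Φ_apply_zero, Φ.apply_symm_apply]
    have h1 : (Φ.symm p).im = p 1 := by rw [← Φ_apply_one, Φ.apply_symm_apply]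
    show _ ↔ |(Φ.symm p).re| ≤ 1/2 ∧ |(Φ.symm p).im| ≤ 3/4 - (Φ.symm p).re ^ 2
    rw [h0, h1]
    rfl
  rw [hK, Φ.symm.measurePreserving.measure_preimage
    (Complex.measurableEquivRealProd.measurable hR2).nullMeasurableSet,
    Complex.volume_preserving_equiv_real_prod.measure_preimage_equiv,
    Measure.volume_eq_prod, Measure.prod_apply hR2]
  have e2 : ∀ x : ℝ, volume (Prod.mk x ⁻¹' R2) =
      Set.indicator (Set.Icc (-(1/2):ℝ) (1/2)) (fun x => ENNReal.ofReal (3/2 - 2 * x ^ 2)) x := by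
    intro x
    by_cases hx : x ∈ Set.Icc (-(1/2):ℝ) (1/2)
    · rw [Set.indicator_of_mem hx]
      have : Prod.mk x ⁻¹' R2 = Set.Icc (-(3/4 - x ^ 2)) (3/4 - x ^ 2) := by
        ext y
        simp only [R2, Set.mem_preimage, Set.mem_ofPred_eq, Set.mem_Icc]
        rw [abs_le, abs_le]
        exact ⟨fun h => h.2, fun h => ⟨hx, h⟩⟩
      rw [this, Real.volume_Icc]
      congr 1
      ring
    · rw [Set.indicator_of_notMem hx]
      have : Prod.mk x ⁻¹' R2 = ∅ := by
        ext y
        simp only [R2, Set.mem_preimage, Set.mem_ofPred_eq, Set.mem_empty_iff_false, iff_false]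
        rintro ⟨h1, _⟩
        exact hx (abs_le.1 h1)
      rw [this, measure_empty]
  simp_rw [e2]
  rw [lintegral_indicator measurableSet_Icc]
  have hint : IntegrableOn (fun x : ℝ => 3/2 - 2 * x ^ 2) (Set.Icc (-(1/2):ℝ) (1/2)) volume :=
    (by fun_prop : Continuous fun x : ℝ => 3/2 - 2 * x ^ 2).continuousOn.integrableOn_Icc
  rw [← ofReal_integral_eq_lintegral_ofReal hint]
  · rw [integral_Icc_eq_integral_Ioc, ← intervalIntegral.integral_of_le (by norm_num)]
    have : ∫ x in (-(1/2):ℝ)..(1/2), (3/2 - 2 * x ^ 2) = 4 / 3 := by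
      rw [intervalIntegral.integral_sub
        ((by fun_prop : Continuous fun x : ℝ => (3/2 : ℝ)).intervalIntegrable _ _)
        ((by fun_prop : Continuous fun x : ℝ => 2 * x ^ 2).intervalIntegrable _ _)]
      rw [intervalIntegral.integral_const_mul, integral_pow, intervalIntegral.integral_const]
      norm_num
    rw [this, ENNReal.ofReal_div_of_pos (by norm_num)]
    norm_num
  · filter_upwards [ae_restrict_mem measurableSet_Icc] with x hx
    have h1 : x ^ 2 ≤ 1/4 := by
      have := abs_le.2 ⟨hx.1, hx.2⟩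
      nlinarith [hx.1, hx.2]
    show (0:ℝ) ≤ 3/2 - 2 * x ^ 2
    linarith

theorem mstar_le : mstar ≤ ENNReal.ofReal (5 / (4 * Real.sin (2 * Real.pi / 5))) := by
  have h : mstar ≤ volume (Φ '' EC) :=
    sInf_le ⟨Φ '' EC, star_compact.isClosed.measurableSet.nullMeasurableSet, star_catching, rfl⟩
  exact h.trans star_volume

/-- There is a compact lattice-catching set of area at most `5 / (4 sin 72°) < 1.3144`.
Hence `m* ≤ 5 / (4 sin 72°) < 4/3`, and `K`, whose area is `4/3`, does not have least area among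
the measurable lattice-catching sets. -/
theorem result :
    (∃ E : Set Plane, IsCompact E ∧ LatticeCatching E ∧
      volume E ≤ ENNReal.ofReal (5 / (4 * Real.sin (2 * Real.pi / 5))) ∧ volume E < volume K) ∧
    volume K = 4 / 3 ∧
    mstar ≤ ENNReal.ofReal (5 / (4 * Real.sin (2 * Real.pi / 5))) ∧
    5 / (4 * Real.sin (2 * Real.pi / 5)) < 1.3144 ∧
    mstar < 4 / 3 :=
  ⟨⟨Φ '' EC, star_compact, star_catching, star_volume,
    star_volume.trans_lt (by rw [volume_K]; exact const_lt')⟩,
    volume_K, mstar_le, const_lt, mstar_le.trans_lt const_lt'⟩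

end Pool.Agent.Results.MP_02aa3f_co.PenroseStar
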